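import Pool.Agent.R165.LS.C

/-!
# Limit superior of sequences of `1/n`-periodic functions: a counterexample
-/

namespace Pool.Agent.Results.MP_942486_an.LimsupNotConstant

open Filter Topology MeasureTheory
open Pool.Agent.R165.LS

/-- Admissible sequences: (Borel) measurable, uniformly bounded, `f n` has period `1/n`. -/
def Admissible (f : ℕ → ℝ → ℝ) : Prop :=
  (∀ n, 1 ≤ n → Measurable (f n)) ∧ (∃ M : ℝ, ∀ n, 1 ≤ n → ∀ x, |f n x| ≤ M) ∧
    ∀ n, 1 ≤ n → ∀ x, f n (x + 1 / (n : ℝ)) = f n x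

section Construction

variable (P : ℕ → Finset ℕ) (c : ℕ → ℕ → ℤ)

/-- The products of the blocks. -/
def R (t : ℕ) : ℕ := ∏ p ∈ P t, p

open Classical in
/-- The function of the cell index. -/
noncomputable def F (t p : ℕ) (a : ℤ) : ℝ :=
  if (∀ r ∈ P t, r ≠ p → ¬ (r : ℤ) ∣ a) ∧
    Int.fract ((a : ℝ) / (q (R P) (t + 1) : ℝ) - c t p * (a : ℝ) / p) < 1 / 2 then 1 else 0

open Classical in
/-- The sequence. -/
noncomputable def f (n : ℕ) (x : ℝ) : ℝ :=
  if h : ∃ t, n ∈ P t then F P c h.choose n ⌊(q (R P) (h.choose + 1) : ℝ) * x⌋ else 0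

variable {P c}

theorem f_eq (hd : ∀ s t p, p ∈ P s → p ∈ P t → s = t) {t p : ℕ} (hp : p ∈ P t) (x : ℝ) :
    f P c p x = F P c t p ⌊(q (R P) (t + 1) : ℝ) * x⌋ := by
  have h : ∃ t, p ∈ P t := ⟨t, hp⟩
  have h1 : h.choose = t := hd _ _ p h.choose_spec hp
  unfold f
  rw [dif_pos h, h1]

theorem F_zero_or_one (t p : ℕ) (a : ℤ) : F P c t p a = 0 ∨ F P c t p a = 1 := by
  unfold F
  split_ifs
  · exact Or.inr rfl
  · exact Or.inl rfl

theorem f_zero_or_one (n : ℕ) (x : ℝ) : f P c n x = 0 ∨ f P c n x = 1 := by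
  unfold f
  split_ifs
  · exact F_zero_or_one _ _ _
  · exact Or.inl rfl

theorem f_measurable (n : ℕ) : Measurable (f P c n) := by
  unfold f
  split_ifs with h
  · have h1 : Measurable fun x : ℝ => ⌊(q (R P) (h.choose + 1) : ℝ) * x⌋ :=
      (measurable_id.const_mul _).floor
    exact (measurable_from_top (f := F P c h.choose n)).comp h1
  · exact measurable_const

theorem F_add (hP : ∀ t, ∀ p ∈ P t, p.Prime) {t p k : ℕ} (hp : p ∈ P t)
    (hk : q (R P) (t + 1) = p * k) (hc : ∃ j : ℤ, c t p * (k : ℤ) = 1 + (p : ℤ) * j)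
    (hcop : ∀ r ∈ P t, r ≠ p → r ∣ k) (a : ℤ) : F P c t p (a + k) = F P c t p a := by
  have hpp := hP t p hp
  have hp0 : (p : ℝ) ≠ 0 := by exact_mod_cast hpp.ne_zero
  have h1 : (∀ r ∈ P t, r ≠ p → ¬ (r : ℤ) ∣ a + k) ↔ (∀ r ∈ P t, r ≠ p → ¬ (r : ℤ) ∣ a) := by
    refine forall₃_congr fun r hr hrp => ?_
    rw [dvd_add_left (by exact_mod_cast hcop r hr hrp)]
  obtain ⟨j, hj⟩ := hc
  have hk0 : (k : ℝ) ≠ 0 := by
    intro h
    have h2 : k = 0 := by exact_mod_cast h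
    rw [h2, Nat.cast_zero, mul_zero] at hj
    have h3 : (p : ℤ) ∣ 1 := ⟨-j, by linarith⟩
    have h4 : p ∣ 1 := by exact_mod_cast h3
    exact hpp.one_lt.ne' (Nat.dvd_one.mp h4)
  have h2 : (((a + k : ℤ) : ℝ)) / (q (R P) (t + 1) : ℝ) - c t p * ((a + k : ℤ) : ℝ) / p =
      (a : ℝ) / (q (R P) (t + 1) : ℝ) - c t p * (a : ℝ) / p - (j : ℤ) := by
    have h3 : (c t p : ℝ) * (k : ℝ) = 1 + (p : ℝ) * j := by exact_mod_cast hj
    rw [hk]
    push_cast
    have h4 : (c t p : ℝ) * ((a : ℝ) + k) / p = c t p * (a : ℝ) / p + (1 + (p : ℝ) * j) / p := by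
      rw [← h3]
      ring
    rw [h4]
    field_simp
    ring
  unfold F
  rw [h2, Int.fract_sub_intCast]
  exact if_congr (and_congr_left' h1) rfl rfl

/-- `k = q (t + 1) / p` and its properties. -/
theorem exists_cofactor (hP : ∀ t, ∀ p ∈ P t, p.Prime)
    (hd : ∀ s t p, p ∈ P s → p ∈ P t → s = t) {t p : ℕ} (hp : p ∈ P t) :
    ∃ k : ℕ, q (R P) (t + 1) = p * k ∧ p.Coprime k ∧ ∀ r ∈ P t, r ≠ p → r ∣ k := by
  refine ⟨(∏ r ∈ (P t).erase p, r) * q (R P) t, ?_, ?_, ?_⟩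
  · have h1 : p * ∏ r ∈ (P t).erase p, r = R P t :=
      Finset.mul_prod_erase (P t) (fun r : ℕ => r) hp
    rw [q_succ, ← mul_assoc, h1, mul_comm]
  · refine Nat.Coprime.mul_right ?_ ?_
    · refine Nat.Coprime.prod_right fun r hr => ?_
      rw [Finset.mem_erase] at hr
      exact (Nat.coprime_primes (hP t p hp) (hP t r hr.2)).mpr hr.1.symm
    · refine Nat.Coprime.prod_right fun s hs => Nat.Coprime.prod_right fun r hr => ?_
      refine (Nat.coprime_primes (hP t p hp) (hP s r hr)).mpr ?_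
      rintro rfl
      have := hd s t p hr hp
      rw [Finset.mem_range] at hs
      omega
  · intro r hr hrp
    exact (Finset.dvd_prod_of_mem _ (Finset.mem_erase.mpr ⟨hrp, hr⟩)).mul_right _

end Construction

theorem limsup_one {u : ℕ → ℝ} (h1 : ∀ n, u n = 0 ∨ u n = 1) (h2 : ∃ᶠ n in atTop, u n = 1) :
    limsup u atTop = 1 := by
  have hb : IsBoundedUnder (· ≤ ·) atTop u := isBoundedUnder_of ⟨1, fun n => by
    rcases h1 n with h | h <;> norm_num [h]⟩
  have hb' : IsBoundedUnder (· ≥ ·) atTop u := isBoundedUnder_of ⟨0, fun n => by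
    rcases h1 n with h | h <;> norm_num [h]⟩
  refine le_antisymm ?_ (le_limsup_of_frequently_le (h2.mono fun n hn => hn.ge) hb)
  refine limsup_le_of_le hb'.isCoboundedUnder_le (Eventually.of_forall fun n => ?_)
  rcases h1 n with h | h <;> rw [h]
  norm_num

theorem liminf_zero {u : ℕ → ℝ} (h1 : ∀ n, u n = 0 ∨ u n = 1) (h2 : ∃ᶠ n in atTop, u n = 0) :
    liminf u atTop = 0 := by
  have hb : IsBoundedUnder (· ≤ ·) atTop u := isBoundedUnder_of ⟨1, fun n => by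
    rcases h1 n with h | h <;> norm_num [h]⟩
  have hb' : IsBoundedUnder (· ≥ ·) atTop u := isBoundedUnder_of ⟨0, fun n => by
    rcases h1 n with h | h <;> norm_num [h]⟩
  refine le_antisymm (liminf_le_of_frequently_le (h2.mono fun n hn => hn.le) hb') ?_
  refine le_liminf_of_le hb.isCoboundedUnder_ge (Eventually.of_forall fun n => ?_)
  rcases h1 n with h | h <;> rw [h]
  norm_num

theorem main : ∃ f : ℕ → ℝ → ℝ, Admissible f ∧ (∀ n x, f n x = 0 ∨ f n x = 1) ∧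
    (∀ᵐ x : ℝ, x ∈ Set.Ioo (0 : ℝ) (1 / 2) → ∃ᶠ n in atTop, f n x = 1) ∧
    (∀ᵐ x : ℝ, x ∈ Set.Ioo (1 / 2 : ℝ) 1 → ∀ᶠ n in atTop, f n x = 0) := by
  classical
  obtain ⟨P, hP, hd, hτ⟩ := exists_blocks
  have hne : ∀ t, (P t).Nonempty := by
    intro t
    by_contra h
    rw [Finset.not_nonempty_iff_eq_empty] at h
    have h1 := (hτ t).2
    rw [h, Finset.prod_empty] at h1
    linarith [tau_lt_one t]
  have hR : ∀ t, 0 < R P t := fun t => Finset.prod_pos fun p hp => (hP t p hp).pos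
  have hR2 : ∀ t, 2 ≤ R P t := by
    intro t
    obtain ⟨p, hp⟩ := hne t
    exact (hP t p hp).two_le.trans (Nat.le_of_dvd (hR t) (Finset.dvd_prod_of_mem _ hp))
  have hc : ∀ t p, ∃ c : ℤ, p ∈ P t → ∃ k : ℕ, q (R P) (t + 1) = p * k ∧
      (∃ j : ℤ, c * (k : ℤ) = 1 + (p : ℤ) * j) ∧ ∀ r ∈ P t, r ≠ p → r ∣ k := by
    intro t p
    by_cases hp : p ∈ P t
    · obtain ⟨k, hk, hk2, hk3⟩ := exists_cofactor hP hd hp
      obtain ⟨u, v, huv⟩ := Nat.isCoprime_iff_coprime.mpr hk2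
      exact ⟨v, fun _ => ⟨k, hk, ⟨-u, by linarith⟩, hk3⟩⟩
    · exact ⟨0, fun h => absurd h hp⟩
  choose c hc using hc
  -- the digit sets
  set Z : ℕ → Set ℕ := fun t => {a | ∀ r ∈ P t, ¬ r ∣ a} with hZ
  set O : ℕ → Set ℕ := fun t => {a | ∃ p ∈ P t, p ∣ a ∧ ∀ r ∈ P t, r ≠ p → ¬ r ∣ a} with hO
  have hdm : ∀ t, ∀ r ∈ P t, ∀ a, r ∣ a % R P t ↔ r ∣ a := fun t r hr a =>
    Nat.dvd_mod_iff (Finset.dvd_prod_of_mem _ hr)
  have hZper : ∀ t a, a ∈ Z t → a % R P t ∈ Z t := by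
    intro t a ha r hr
    rw [hdm t r hr]
    exact ha r hr
  have hOper : ∀ t a, a % R P t ∈ O t → a ∈ O t := by
    rintro t a ⟨p, hp, h1, h2⟩
    refine ⟨p, hp, (hdm t p hp a).mp h1, fun r hr hrp => ?_⟩
    rw [← hdm t r hr]
    exact h2 r hr hrp
  have hbc1 := bc_one hR Z hZper tau (by
    intro t
    have h1 := count_zero (hP t)
    have h2 : (R P t : ℝ) = ∏ p ∈ P t, (p : ℝ) := by
      unfold R
      push_cast
      rfl
    refine ⟨_, fun r hr hrZ => ?_, h1.le.trans ?_⟩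
    · rw [Finset.mem_filter, Finset.mem_range]
      exact ⟨hr, hrZ⟩
    · rw [h2]
      refine mul_le_mul_of_nonneg_left (hτ t).2 ?_
      rw [← h2]
      positivity) tau_summable
  set d : ℕ → ℝ := fun t => tau t / 2 * (-Real.log (tau t)) with hdd
  have hlog : ∀ t, 0 ≤ -Real.log (tau t) := by
    intro t
    have := Real.log_nonpos (tau_pos t).le (tau_lt_one t).le
    linarith
  have hd0 : ∀ t, 0 ≤ d t := fun t => mul_nonneg (by have := tau_pos t; linarith) (hlog t)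
  have hcountO : ∀ t, ∃ B : Finset ℕ, (∀ r < R P t, r ∉ O t → r ∈ B) ∧ (B.card : ℝ) ≤
      R P t * (1 - d t) := by
    intro t
    refine ⟨(Finset.range (R P t)).filter fun r => ¬ (∃ p ∈ P t, p ∣ r ∧
      ∀ q ∈ P t, q ≠ p → ¬ q ∣ r), fun r hr hrO => ?_, ?_⟩
    · rw [Finset.mem_filter, Finset.mem_range]
      exact ⟨hr, hrO⟩
    have h1 := count_one (hP t)
    have h2 : (R P t : ℝ) = ∏ p ∈ P t, (p : ℝ) := by
      unfold R
      push_cast
      rfl
    rw [← h2] at h1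
    have h4 : (((Finset.range (R P t)).filter fun r => ∃ p ∈ P t, p ∣ r ∧
        ∀ q ∈ P t, q ≠ p → ¬ q ∣ r).card : ℝ) +
        (((Finset.range (R P t)).filter fun r => ¬ (∃ p ∈ P t, p ∣ r ∧
        ∀ q ∈ P t, q ≠ p → ¬ q ∣ r)).card : ℝ) = R P t := by
      have := Finset.card_filter_add_card_filter_not (s := Finset.range (R P t))
        (fun r => ∃ p ∈ P t, p ∣ r ∧ ∀ q ∈ P t, q ≠ p → ¬ q ∣ r)
      rw [Finset.card_range] at this
      exact_mod_cast this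
    have h1' : (R P t : ℝ) * ((∏ p ∈ P t, (1 - 1 / (p : ℝ))) *
        (-Real.log (∏ p ∈ P t, (1 - 1 / (p : ℝ))))) ≤
        (((Finset.range (R P t)).filter fun r => ∃ p ∈ P t, p ∣ r ∧
        ∀ q ∈ P t, q ≠ p → ¬ q ∣ r).card : ℝ) := h1
    have h5 : d t ≤ (∏ p ∈ P t, (1 - 1 / (p : ℝ))) *
        (-Real.log (∏ p ∈ P t, (1 - 1 / (p : ℝ)))) := by
      obtain ⟨h6, h7⟩ := hτ t
      have h8 : 0 < ∏ p ∈ P t, (1 - 1 / (p : ℝ)) := lt_trans (by have := tau_pos t; linarith) h6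
      have h9 := Real.log_le_log h8 h7
      exact mul_le_mul h6.le (by linarith) (hlog t) h8.le
    have h6 : (0 : ℝ) ≤ R P t := by positivity
    have h7 := mul_le_mul_of_nonneg_left h5 h6
    linarith
  have he0 : ∀ t, 0 ≤ 1 - d t := by
    intro t
    obtain ⟨B, -, hB⟩ := hcountO t
    have h1 : (0 : ℝ) ≤ R P t * (1 - d t) := le_trans (by positivity) hB
    exact nonneg_of_mul_nonneg_right h1 (by exact_mod_cast hR t)
  have hbc2 := bc_two hR O hOper (fun t => 1 - d t) hcountO (by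
    intro t0
    have hns : ¬ Summable fun j => d (t0 + j) := by
      intro h
      refine tau_log_not_summable ?_
      have h1 : Summable fun j => d (j + t0) := by
        refine h.congr fun j => ?_
        rw [add_comm]
      exact (summable_nat_add_iff t0).mp h1
    have htend := (not_summable_iff_tendsto_nat_atTop_of_nonneg fun j => hd0 (t0 + j)).mp hns
    refine squeeze_zero (fun k => Finset.prod_nonneg fun j _ => he0 _)
      (fun k => sub_le_exp_neg_sum fun j _ => he0 _) ?_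
    exact Real.tendsto_exp_neg_atTop_nhds_zero.comp htend)
  -- the position of blocks
  have hbig : ∀ n0 : ℕ, ∃ t1, ∀ t, t1 ≤ t → ∀ p ∈ P t, n0 ≤ p := by
    intro n0
    set T : ℕ → ℕ := fun n => if h : ∃ t, n ∈ P t then h.choose else 0 with hT
    refine ⟨(Finset.range n0).sup T + 1, fun t ht p hp => ?_⟩
    by_contra hlt
    push Not at hlt
    have h : ∃ t, p ∈ P t := ⟨t, hp⟩
    have h1 : T p = t := by
      simp only [hT, dif_pos h]
      exact hd _ _ p h.choose_spec hp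
    have h2 : T p ≤ (Finset.range n0).sup T := Finset.le_sup (Finset.mem_range.mpr hlt)
    omega
  have hsmall : ∀ t1 : ℕ, ∃ n1, ∀ n, n1 ≤ n → ∀ t, n ∈ P t → t1 ≤ t := by
    intro t1
    refine ⟨((Finset.range t1).biUnion P).sup id + 1, fun n hn t ht => ?_⟩
    by_contra hlt
    push Not at hlt
    have h2 : id n ≤ ((Finset.range t1).biUnion P).sup id :=
      Finset.le_sup (Finset.mem_biUnion.mpr ⟨t, Finset.mem_range.mpr hlt, ht⟩)
    rw [id] at h2
    omega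
  have hq2 : ∀ t : ℕ, (t : ℝ) < q (R P) (t + 1) := by
    intro t
    have h1 : 2 ^ (t + 1) ≤ q (R P) (t + 1) := by
      have := Finset.pow_card_le_prod (s := Finset.range (t + 1)) (f := R P) 2
        (fun i _ => hR2 i)
      rwa [Finset.card_range] at this
    have h2 : t < 2 ^ (t + 1) := lt_trans (Nat.lt_succ_self t) Nat.lt_two_pow_self
    exact_mod_cast lt_of_lt_of_le h2 h1
  have hqpos : ∀ t, (0 : ℝ) < q (R P) (t + 1) := fun t => by exact_mod_cast q_pos hR (t + 1)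
  have hfract : ∀ (t : ℕ) (x : ℝ), x ∈ Set.Ico (0 : ℝ) 1 → ∀ p ∈ P t,
      (p : ℤ) ∣ ⌊(q (R P) (t + 1) : ℝ) * x⌋ →
      Int.fract ((⌊(q (R P) (t + 1) : ℝ) * x⌋ : ℝ) / (q (R P) (t + 1) : ℝ) -
        c t p * (⌊(q (R P) (t + 1) : ℝ) * x⌋ : ℝ) / p) =
        (⌊(q (R P) (t + 1) : ℝ) * x⌋ : ℝ) / (q (R P) (t + 1) : ℝ) := by
    intro t x hx p hp hdv
    have hq := hqpos t
    have hp0 : (p : ℝ) ≠ 0 := by exact_mod_cast (hP t p hp).ne_zero
    have hfl : (⌊(q (R P) (t + 1) : ℝ) * x⌋ : ℝ) ≤ (q (R P) (t + 1) : ℝ) * x := Int.floor_le _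
    have hfl0 : (0 : ℝ) ≤ (⌊(q (R P) (t + 1) : ℝ) * x⌋ : ℝ) := by
      exact_mod_cast Int.floor_nonneg.mpr (mul_nonneg hq.le hx.1)
    obtain ⟨j, hj⟩ := hdv
    have h1 : c t p * (⌊(q (R P) (t + 1) : ℝ) * x⌋ : ℝ) / p = ((c t p * j : ℤ) : ℝ) := by
      have h2 : (⌊(q (R P) (t + 1) : ℝ) * x⌋ : ℝ) = (p : ℝ) * j := by exact_mod_cast hj
      rw [h2]
      push_cast
      field_simp
    rw [h1, Int.fract_sub_intCast]
    refine Int.fract_eq_self.mpr ⟨div_nonneg hfl0 hq.le, ?_⟩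
    rw [div_lt_one hq]
    nlinarith [hx.2]
  have hnat : ∀ (t : ℕ) (x : ℝ), x ∈ Set.Ico (0 : ℝ) 1 →
      (⌊(q (R P) (t + 1) : ℝ) * x⌋ : ℤ) = (⌊(q (R P) (t + 1) : ℝ) * x⌋₊ : ℤ) := by
    intro t x hx
    exact (Int.natCast_floor_eq_floor (mul_nonneg (hqpos t).le hx.1)).symm
  refine ⟨f P c, ⟨fun n _ => f_measurable n, ⟨1, fun n _ x => ?_⟩, fun n hn x => ?_⟩,
    f_zero_or_one, ?_, ?_⟩
  · rcases f_zero_or_one (P := P) (c := c) n x with h | h <;> rw [h] <;> norm_num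
  · by_cases h : ∃ t, n ∈ P t
    · obtain ⟨t, ht⟩ := h
      obtain ⟨k, hk1, hk2, hk3⟩ := hc t n ht
      have hn0 : (n : ℝ) ≠ 0 := by exact_mod_cast (hP t n ht).ne_zero
      have h1 : (q (R P) (t + 1) : ℝ) * (x + 1 / n) = (q (R P) (t + 1) : ℝ) * x + (k : ℤ) := by
        rw [hk1]
        push_cast
        field_simp
      rw [f_eq hd ht, f_eq hd ht, h1, Int.floor_add_intCast, F_add hP ht hk1 hk2 hk3]
    · unfold f
      rw [dif_neg h, dif_neg h]
  · filter_upwards [hbc2] with x hx hx1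
    have hxI : x ∈ Set.Ico (0 : ℝ) 1 := ⟨hx1.1.le, by linarith [hx1.2]⟩
    rw [frequently_atTop]
    intro n0
    obtain ⟨t1, ht1⟩ := hbig n0
    obtain ⟨t, ht, ⟨p, hp, hpa, hpo⟩⟩ := frequently_atTop.mp (hx hxI) t1
    refine ⟨p, ht1 t ht p hp, ?_⟩
    rw [f_eq hd hp]
    unfold F
    rw [if_pos]
    refine ⟨?_, ?_⟩
    · intro r hr hrp
      rw [hnat t x hxI, Int.natCast_dvd_natCast]
      exact hpo r hr hrp
    · rw [hfract t x hxI p hp (by rw [hnat t x hxI, Int.natCast_dvd_natCast]; exact hpa)]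
      rw [div_lt_iff₀ (hqpos t)]
      have hfl : (⌊(q (R P) (t + 1) : ℝ) * x⌋ : ℝ) ≤ (q (R P) (t + 1) : ℝ) * x := Int.floor_le _
      nlinarith [hx1.2, hqpos t]
  · filter_upwards [hbc1] with x hx hx1
    have hxI : x ∈ Set.Ico (0 : ℝ) 1 := ⟨by linarith [hx1.1], hx1.2⟩
    obtain ⟨t1, ht1⟩ := eventually_atTop.mp (hx hxI)
    obtain ⟨t2, ht2⟩ := exists_nat_gt (1 / (x - 1 / 2))
    obtain ⟨n1, hn1⟩ := hsmall (max t1 t2)
    refine eventually_atTop.mpr ⟨n1, fun n hn => ?_⟩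
    by_cases h : ∃ t, n ∈ P t
    · obtain ⟨t, ht⟩ := h
      have htt := hn1 n hn t ht
      have hz := ht1 t ((le_max_left _ _).trans htt)
      rw [f_eq hd ht]
      unfold F
      rw [if_neg]
      rintro ⟨h1, h2⟩
      refine hz fun r hr hra => ?_
      have hrn : r = n := by
        by_contra hrn
        refine h1 r hr hrn ?_
        rw [hnat t x hxI, Int.natCast_dvd_natCast]
        exact hra
      subst hrn
      rw [hfract t x hxI r ht (by rw [hnat t x hxI, Int.natCast_dvd_natCast]; exact hra),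
        div_lt_iff₀ (hqpos t)] at h2
      have hfl := Int.lt_floor_add_one ((q (R P) (t + 1) : ℝ) * x)
      have h3 : (t2 : ℝ) ≤ t := by exact_mod_cast (le_max_right _ _).trans htt
      have h4 := hq2 t
      have h5 : 0 < x - 1 / 2 := by linarith [hx1.1]
      have h6 : 1 < (x - 1 / 2) * q (R P) (t + 1) := by
        rw [div_lt_iff₀ h5] at ht2
        nlinarith
      nlinarith
    · unfold f
      rw [dif_neg h]

theorem not_const {g : ℝ → ℝ} {a b : ℝ} (hab : a ≠ b)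
    (h1 : ∀ᵐ x : ℝ, x ∈ Set.Ioo (0 : ℝ) (1 / 2) → g x = a)
    (h2 : ∀ᵐ x : ℝ, x ∈ Set.Ioo (1 / 2 : ℝ) 1 → g x = b) : ¬ ∃ c : ℝ, ∀ᵐ x : ℝ, g x = c := by
  rintro ⟨c, hc⟩
  have key : ∀ u v w : ℝ, u < v → (∀ᵐ x : ℝ, x ∈ Set.Ioo u v → g x = w) → c = w := by
    intro u v w huv hw
    by_contra hcw
    have h3 : ∀ᵐ x : ℝ, x ∉ Set.Ioo u v := by
      filter_upwards [hc, hw] with x hx1 hx2 hx3
      exact hcw (hx1.symm.trans (hx2 hx3))
    have h4 : volume (Set.Ioo u v) = 0 := by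
      rw [ae_iff] at h3
      convert h3 using 2
      ext x
      simp
    rw [Real.volume_Ioo, ENNReal.ofReal_eq_zero] at h4
    linarith
  exact hab ((key _ _ _ (by norm_num) h1).symm.trans (key _ _ _ (by norm_num) h2))

/-- There is an admissible sequence of functions with values in `{0, 1}` whose limit superior is
`1` a.e. on `(0, 1/2)` and `0` a.e. on `(1/2, 1)`; so it is not a.e. constant.  There is also an
admissible sequence whose limit inferior is not a.e. constant. -/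
theorem result :
    (∃ f : ℕ → ℝ → ℝ, Admissible f ∧ (∀ n x, f n x = 0 ∨ f n x = 1) ∧
      (∀ᵐ x : ℝ, x ∈ Set.Ioo (0 : ℝ) (1 / 2) → limsup (fun n => f n x) atTop = 1) ∧
      (∀ᵐ x : ℝ, x ∈ Set.Ioo (1 / 2 : ℝ) 1 → limsup (fun n => f n x) atTop = 0) ∧
      ¬ ∃ c : ℝ, ∀ᵐ x : ℝ, limsup (fun n => f n x) atTop = c) ∧
    (∃ g : ℕ → ℝ → ℝ, Admissible g ∧ (∀ n x, g n x = 0 ∨ g n x = 1) ∧
      ¬ ∃ c : ℝ, ∀ᵐ x : ℝ, liminf (fun n => g n x) atTop = c) := by
  obtain ⟨f, hf, h01, h1, h2⟩ := main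
  have e1 : ∀ᵐ x : ℝ, x ∈ Set.Ioo (0 : ℝ) (1 / 2) → limsup (fun n => f n x) atTop = 1 := by
    filter_upwards [h1] with x hx hx1
    exact limsup_one (fun n => h01 n x) (hx hx1)
  have e2 : ∀ᵐ x : ℝ, x ∈ Set.Ioo (1 / 2 : ℝ) 1 → limsup (fun n => f n x) atTop = 0 := by
    filter_upwards [h2] with x hx hx1
    rw [limsup_congr (hx hx1), limsup_const]
  refine ⟨⟨f, hf, h01, e1, e2, not_const one_ne_zero e1 e2⟩, fun n x => 1 - f n x,
    ⟨fun n hn => (hf.1 n hn).const_sub 1, ⟨1, fun n _ x => ?_⟩, fun n hn x => ?_⟩, ?_, ?_⟩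
  · change |1 - f n x| ≤ 1
    rcases h01 n x with h | h <;> rw [h] <;> norm_num
  · simp only [hf.2.2 n hn x]
  · intro n x
    rcases h01 n x with h | h <;> simp [h]
  · refine not_const (a := 0) (b := 1) zero_ne_one ?_ ?_
    · filter_upwards [h1] with x hx hx1
      refine liminf_zero (fun n => ?_) ((hx hx1).mono fun n hn => by rw [hn]; norm_num)
      rcases h01 n x with h | h <;> simp [h]
    · filter_upwards [h2] with x hx hx1
      have h3 : (fun n => 1 - f n x) =ᶠ[atTop] fun _ => (1 : ℝ) := by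
        filter_upwards [hx hx1] with n hn
        rw [hn, sub_zero]
      rw [liminf_congr h3, liminf_const]

end Pool.Agent.Results.MP_942486_an.LimsupNotConstant
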